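import Pool.Agent.H187R3.LVBrody

/-!
The varieties `XX k`, open in `𝔸^(k+2)`, of dimension `k + 2`.
-/

set_option autoImplicit false

open AlgebraicGeometry CategoryTheory Topology

namespace Pool.Agent.Y348.LV

open Pool.Agent.H187R3.LV Pool.Agent.H187R3

/-- `P = u w (u - w)`. -/
noncomputable def P (k : ℕ) : RR (k + 2) :=
  MvPolynomial.X 0 * MvPolynomial.X 1 * (MvPolynomial.X 0 - MvPolynomial.X 1)

/-- `Q = u² - u w + w² - 1`. -/
noncomputable def Q (k : ℕ) : RR (k + 2) :=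
  MvPolynomial.X 0 ^ 2 - MvPolynomial.X 0 * MvPolynomial.X 1 + MvPolynomial.X 1 ^ 2 - 1

/-- `∏ (y_i² - 1)` for the remaining coordinates `y_i`. -/
noncomputable def Yp (k : ℕ) : RR (k + 2) :=
  ∏ i : Fin k, (MvPolynomial.X i.succ.succ ^ 2 - 1)

/-- The variety: the open subscheme `D(P² - 1) ∩ (D(P) ∪ D(Q)) ∩ ⋂ D(y_i² - 1)` of affine space. -/
noncomputable def XX (k : ℕ) : (AA (k + 2)).Opens :=
  PrimeSpectrum.basicOpen (P k ^ 2 - 1) ⊓
    (PrimeSpectrum.basicOpen (P k) ⊔ PrimeSpectrum.basicOpen (Q k)) ⊓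
    PrimeSpectrum.basicOpen (Yp k)

variable {k : ℕ}

lemma mem_XX (y : AA (k + 2)) : y ∈ XX k ↔
    (P k ^ 2 - 1 ∉ y.asIdeal ∧ (P k ∉ y.asIdeal ∨ Q k ∉ y.asIdeal)) ∧ Yp k ∉ y.asIdeal :=
  Iff.rfl

/-- The point with all coordinates `0`. -/
noncomputable def origin (k : ℕ) : SpecC ⟶ (XX k).toScheme :=
  IsOpenImmersion.lift (XX k).ι (ptA fun _ => 0) (by
    rintro _ ⟨y, rfl⟩
    rw [Scheme.Opens.range_ι]
    show _ ∈ XX k
    rw [mem_XX]
    unfold ptA
    rw [mem_specMap, mem_specMap, mem_specMap, mem_specMap, mem_pt, mem_pt, mem_pt, mem_pt]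
    simp [P, Q, Yp])

lemma origin_ι : origin k ≫ (XX k).ι = ptA fun _ => 0 :=
  IsOpenImmersion.lift_fac _ _ _

/-- The linear map `z ↦ z v` on rings. -/
noncomputable def lin (v : Fin (k + 2) → ℂ) : RR (k + 2) →+* RR 1 :=
  (MvPolynomial.aeval (fun i => MvPolynomial.C (v i) * MvPolynomial.X 0) :
    RR (k + 2) →ₐ[ℂ] RR 1).toRingHom

lemma lin_X (v : Fin (k + 2) → ℂ) (i : Fin (k + 2)) :
    lin v (MvPolynomial.X i) = MvPolynomial.C (v i) * MvPolynomial.X 0 := by simp [lin]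

lemma lin_C (v : Fin (k + 2) → ℂ) (c : ℂ) : lin v (MvPolynomial.C c) = MvPolynomial.C c := by
  simp [lin]

/-- The admissible vectors. -/
structure Adm (v : Fin (k + 2) → ℂ) : Prop where
  one : v 0 * v 1 * (v 0 - v 1) = 1
  zero : ∀ i : Fin k, v i.succ.succ = 0

lemma lin_P {v : Fin (k + 2) → ℂ} (hv : Adm v) : lin v (P k) = MvPolynomial.X 0 ^ 3 := by
  have h : (MvPolynomial.C (v 0) * MvPolynomial.C (v 1) *
      (MvPolynomial.C (v 0) - MvPolynomial.C (v 1)) : RR 1) = 1 := by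
    rw [← map_mul, ← map_sub, ← map_mul, hv.one, map_one]
  simp only [P, map_mul, map_sub, lin_X]
  linear_combination (MvPolynomial.X 0 : RR 1) ^ 3 * h

lemma lin_Q (v : Fin (k + 2) → ℂ) :
    lin v (Q k) = MvPolynomial.C (v 0 ^ 2 - v 0 * v 1 + v 1 ^ 2) * MvPolynomial.X 0 ^ 2 - 1 := by
  simp only [Q, map_sub, map_add, map_mul, map_pow, lin_X, map_one]
  ring

lemma lin_Y {v : Fin (k + 2) → ℂ} (hv : Adm v) : lin v (Yp k) = (-1) ^ k := by
  unfold Yp
  rw [map_prod]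
  have h : ∀ i : Fin k, lin v (MvPolynomial.X i.succ.succ ^ 2 - 1) = -1 := by
    intro i
    rw [map_sub, map_pow, lin_X, hv.zero, map_one]
    simp
  simp only [h, Finset.prod_const, Finset.card_univ, Fintype.card_fin]

/-- The maps `f_v : z ↦ z v`. -/
noncomputable def fmap (v : Fin (k + 2) → ℂ) (hv : Adm v) : CC.toScheme ⟶ (XX k).toScheme :=
  IsOpenImmersion.lift (XX k).ι (CC.ι ≫ Spec.map (CommRingCat.ofHom (lin v))) (by
    rintro _ ⟨y, rfl⟩
    rw [Scheme.Opens.range_ι]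
    show (Spec.map (CommRingCat.ofHom (lin v))) (CC.ι y) ∈ XX k
    have hy : CC.ι y ∈ CC := y.2
    rw [mem_CC] at hy
    rw [mem_XX, mem_specMap, mem_specMap, mem_specMap, mem_specMap, map_sub, map_pow, map_one,
      lin_P hv, lin_Q, lin_Y hv, ← pow_mul]
    refine ⟨⟨hy, ?_⟩, ?_⟩
    · by_contra hcon
      push Not at hcon
      obtain ⟨h1, h2⟩ := hcon
      have h3 : (MvPolynomial.X 0 : RR 1) ∈ (CC.ι y).asIdeal := (CC.ι y).2.mem_of_pow_mem _ h1
      apply (CC.ι y).2.ne_top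
      rw [Ideal.eq_top_iff_one]
      have h4 := Ideal.sub_mem _ (Ideal.mul_mem_left _
        (MvPolynomial.C (v 0 ^ 2 - v 0 * v 1 + v 1 ^ 2) * MvPolynomial.X 0 : RR 1) h3) h2
      convert h4 using 1
      ring
    · intro h
      apply (CC.ι y).2.ne_top
      exact Ideal.eq_top_of_isUnit_mem _ h ((isUnit_one.neg).pow k))

lemma fmap_ι (v : Fin (k + 2) → ℂ) (hv : Adm v) :
    fmap v hv ≫ (XX k).ι = CC.ι ≫ Spec.map (CommRingCat.ofHom (lin v)) :=
  IsOpenImmersion.lift_fac _ _ _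

lemma fmap_over (v : Fin (k + 2) → ℂ) (hv : Adm v) :
    fmap v hv ≫ (XX k).ι ≫ aa (k + 2) = CC.ι ≫ aa 1 := by
  rw [← Category.assoc, fmap_ι, Category.assoc]
  unfold aa
  rw [← Spec.map_comp]
  congr 2
  ext c
  simp [lin_C, MvPolynomial.algebraMap_eq]

lemma ptA_lin (z : ℂ) (v : Fin (k + 2) → ℂ) :
    ptA (fun _ => z) ≫ Spec.map (CommRingCat.ofHom (lin v)) = ptA fun i => v i * z := by
  unfold ptA
  rw [← Spec.map_comp]
  congr 1
  ext i
  · simp [lin_C]
  · simp [lin_X]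

lemma ptC_fmap (v : Fin (k + 2) → ℂ) (hv : Adm v) :
    ptC 0 (by norm_num) ≫ fmap v hv = origin k := by
  rw [← cancel_mono (XX k).ι, Category.assoc, fmap_ι, ← Category.assoc, ptC_ι, ptA_lin, origin_ι]
  simp

lemma fmap_injective {v v' : Fin (k + 2) → ℂ} {hv : Adm v} {hv' : Adm v'}
    (h : fmap v hv = fmap v' hv') : v = v' := by
  have h1 : ptC 2 (by norm_num) ≫ fmap v hv ≫ (XX k).ι =
      ptC 2 (by norm_num) ≫ fmap v' hv' ≫ (XX k).ι := by
    rw [h]
  rw [fmap_ι, fmap_ι, ← Category.assoc, ← Category.assoc, ptC_ι, ptA_lin, ptA_lin] at h1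
  have h2 := ptA_injective h1
  funext i
  have h3 := congrFun h2 i
  simpa using h3

lemma exists_v (k : ℕ) (c : ℂ) (h0 : c ≠ 0) (h1 : c ≠ 1) : ∃ v : Fin (k + 2) → ℂ, Adm v ∧
    v 1 ≠ 0 ∧ v 0 = c * v 1 := by
  have hn : c * (c - 1) ≠ 0 := mul_ne_zero h0 (sub_ne_zero.2 h1)
  obtain ⟨a, ha⟩ := IsAlgClosed.exists_pow_nat_eq ((c * (c - 1))⁻¹) (n := 3) (by norm_num)
  have ha0 : a ≠ 0 := by
    rintro rfl
    rw [zero_pow (by norm_num)] at ha
    exact inv_ne_zero hn ha.symm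
  refine ⟨Fin.cons (c * a) (Fin.cons a fun _ => 0), ⟨?_, fun i => by simp⟩, by simpa using ha0,
    by simp⟩
  have e1 : (Fin.cons (c * a) (Fin.cons a fun _ => 0) : Fin (k + 2) → ℂ) 1 = a := rfl
  rw [Fin.cons_zero, e1]
  have : c * a * a * (c * a - a) = (c * (c - 1)) * a ^ 3 := by ring
  rw [this, ha, mul_inv_cancel₀ hn]

/-- There are uncountably many morphisms `f : C ⟶ X` with `f(0) = 0`. -/
theorem uncountable_maps (k : ℕ) :
    ¬ {f : CC.toScheme ⟶ (XX k).toScheme | f ≫ ((XX k).ι ≫ aa (k + 2)) = CC.ι ≫ aa 1 ∧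
      ptC 0 (by norm_num) ≫ f = origin k}.Countable := by
  intro hcount
  choose v hv hv1 hv2 using exists_v k
  let g : {c : ℂ // c ≠ 0 ∧ c ≠ 1} → (CC.toScheme ⟶ (XX k).toScheme) := fun c =>
    fmap (v c.1 c.2.1 c.2.2) (hv c.1 c.2.1 c.2.2)
  have hg : Function.Injective g := by
    intro c c' h
    have h1 := fmap_injective h
    have h2 := hv2 c.1 c.2.1 c.2.2
    rw [h1, hv2 c'.1 c'.2.1 c'.2.2] at h2
    exact Subtype.ext (mul_right_cancel₀ (hv1 c'.1 c'.2.1 c'.2.2) h2).symm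
  have hr : (Set.range g).Countable := by
    refine hcount.mono ?_
    rintro _ ⟨c, rfl⟩
    exact ⟨fmap_over _ _, ptC_fmap _ _⟩
  have h1 : Countable {c : ℂ // c ≠ 0 ∧ c ≠ 1} := by
    have := hr.to_subtype
    exact (Equiv.ofInjective g hg).countable_iff.2 this
  have h2 : {c : ℂ | c ≠ 0 ∧ c ≠ 1}.Countable := Set.countable_coe_iff.1 h1
  have h3 : (Set.univ : Set ℂ).Countable := by
    refine (h2.union ((Set.finite_singleton (0 : ℂ)).countable.union
      (Set.finite_singleton (1 : ℂ)).countable)).mono ?_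
    intro c _
    by_cases h0 : c = 0
    · right; left; exact h0
    · by_cases h1 : c = 1
      · right; right; exact h1
      · left; exact ⟨h0, h1⟩
  exact not_countable_complex h3

/-! ### Brody hyperbolicity -/

/-- A regular function on `XX` coming from a polynomial. -/
noncomputable def sec (F : RR (k + 2)) : Γ((XX k).toScheme, ⊤) :=
  ((XX k).ι.appTop).hom ((Scheme.ΓSpecIso (CommRingCat.of (RR (k + 2)))).inv.hom F)

/-- The ring map `ℂ[x] → ℂ` of a `ℂ`-point of `XX`. -/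
noncomputable def evx (x : SpecC ⟶ (XX k).toScheme) : RR (k + 2) →+* ℂ :=
  (Spec.preimage (x ≫ (XX k).ι)).hom

lemma map_evx (x : SpecC ⟶ (XX k).toScheme) :
    Spec.map (CommRingCat.ofHom (evx x)) = x ≫ (XX k).ι := by
  unfold evx
  exact Spec.map_preimage _

lemma evx_C (x : SpecC ⟶ (XX k).toScheme) (hx : x ≫ ((XX k).ι ≫ aa (k + 2)) = 𝟙 SpecC) (c : ℂ) :
    evx x (MvPolynomial.C c) = c := by
  rw [← Category.assoc, ← map_evx] at hx
  unfold aa at hx
  rw [← Spec.map_comp, ← Spec.map_id] at hx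
  have h1 := Spec.map_injective hx
  have h2 := congrArg (fun g : CommRingCat.of ℂ ⟶ CommRingCat.of ℂ => g.hom c) h1
  simpa [MvPolynomial.algebraMap_eq] using h2

lemma valueAt_sec (x : SpecC ⟶ (XX k).toScheme) (h : ⊤ ≤ x ⁻¹ᵁ (⊤ : (XX k).toScheme.Opens))
    (F : RR (k + 2)) : valueAt x h (sec F) = evx x F := by
  unfold valueAt sec
  have h1 : x.appLE ⊤ ⊤ h = x.appTop := Scheme.Hom.appLE_eq_app x
  have h2 : (Scheme.ΓSpecIso (CommRingCat.of (RR (k + 2)))).inv ≫ (XX k).ι.appTop ≫ x.appTop ≫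
      (Scheme.ΓSpecIso (CommRingCat.of ℂ)).hom = CommRingCat.ofHom (evx x) := by
    rw [← Category.assoc (XX k).ι.appTop, ← Scheme.Hom.comp_appTop, ← map_evx,
      Scheme.ΓSpecIso_naturality, Iso.inv_hom_id_assoc]
  rw [h1]
  exact congrArg (fun g : CommRingCat.of (RR (k + 2)) ⟶ CommRingCat.of ℂ => g.hom F) h2

lemma mem_of_pt (x : SpecC ⟶ (XX k).toScheme) :
    (evx x (P k ^ 2 - 1) ≠ 0 ∧ (evx x (P k) ≠ 0 ∨ evx x (Q k) ≠ 0)) ∧ evx x (Yp k) ≠ 0 := by
  obtain ⟨y⟩ : Nonempty SpecC := inferInstance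
  have h1 : (x ≫ (XX k).ι) y ∈ XX k := (x y).2
  rw [← map_evx, mem_XX, mem_specMap, mem_specMap, mem_specMap, mem_specMap, mem_pt, mem_pt,
    mem_pt, mem_pt] at h1
  exact h1

theorem brody_XX (k : ℕ) : BrodyHyperbolic ((XX k).ι ≫ aa (k + 2)) := by
  intro φ hφ
  set c : Fin (k + 2) → ℂ → ℂ := fun i t => evx (φ t) (MvPolynomial.X i) with hc
  have hd : ∀ F : RR (k + 2), Differentiable ℂ (fun t => evx (φ t) F) := by
    intro F t₀
    obtain ⟨g, hg, hg'⟩ := hφ.holomorphic ⊤ (sec F) t₀ le_rfl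
    refine hg.differentiableAt.congr_of_eventuallyEq ?_
    filter_upwards [hg'] with t ht
    obtain ⟨h, ht⟩ := ht
    rw [← ht, valueAt_sec]
  have h := const_of_avoid (u := c 0) (w := c 1) (hd _) (hd _) ?_ ?_
  · have hy : ∀ (i : Fin k) (t t' : ℂ), c i.succ.succ t = c i.succ.succ t' := by
      intro i t t'
      refine const_of_sq_ne_one (hd _) (fun t ht => ?_) t t'
      have h1 := (mem_of_pt (φ t)).2
      unfold Yp at h1
      rw [map_prod, Finset.prod_ne_zero_iff] at h1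
      apply h1 i (Finset.mem_univ _)
      rw [map_sub, map_pow, map_one]
      linear_combination ht
    intro t t'
    obtain ⟨h1, h2⟩ := h t t'
    have h3 : evx (φ t) = evx (φ t') := by
      apply MvPolynomial.ringHom_ext
      · intro c
        rw [evx_C _ (hφ.isPoint t), evx_C _ (hφ.isPoint t')]
      · intro i
        refine Fin.cases h1 (fun j => ?_) i
        refine Fin.cases h2 (fun j => ?_) j
        exact hy j t t'
    rw [← cancel_mono (XX k).ι, ← map_evx, ← map_evx, h3]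
  · intro t ht
    refine (mem_of_pt (φ t)).1.1 ?_
    simp only [P, map_sub, map_pow, map_mul, map_one]
    linear_combination ht
  · intro t
    refine (mem_of_pt (φ t)).1.2.imp (fun h => ?_) (fun h h' => h ?_)
    · simpa only [P, map_sub, map_mul] using h
    · simp only [Q, map_sub, map_add, map_pow, map_mul, map_one]
      linear_combination h'

end Pool.Agent.Y348.LV
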